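import Pool.Agent.H.MP_5b9ab2_co.Pure

namespace Pool.Agent.H.MP_5b9ab2_co

def AA (j : ℕ) : Finset (Fin 10) := if j = 0 then ∅ else if j = 1 then {9} else {6, 9}

def PP (j : ℕ) : Finset (Finset (Fin 10)) :=
  if j = 0 then {{0, 1, 2, 3, 4, 5}, {6, 7, 8}} else
    if j = 1 then {{1, 4, 7, 8}, {0, 2, 3, 5}} else {{0, 1, 2, 3, 4, 8}}

def mm (j : ℕ) (F : Finset (Fin 10)) : Prop :=
  F ⊆ AA j ∪ (PP j).sup id ∧ ∀ B ∈ PP j, ¬ B ⊆ F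

lemma c0 : ∀ j ≤ 2, (∀ B ∈ PP j, 2 ≤ B.card ∧ Disjoint (AA j) B) ∧
    (∀ B ∈ PP j, ∀ C ∈ PP j, B ≠ C → Disjoint B C) ∧
    (AA j).card + ∑ B ∈ PP j, (B.card - 1) = 7 := by
  intro j hj
  simp only [Finset.disjoint_iff_inter_eq_empty]
  interval_cases j <;> refine ⟨?_, ?_, ?_⟩ <;> decide +kernel

lemma m0 (F : Finset (Fin 10)) :
    mm 0 F ↔ (9 ∉ F ∧ ¬ {0, 1, 2, 3, 4, 5} ⊆ F ∧ ¬ {6, 7, 8} ⊆ F) := by
  unfold mm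
  rw [show AA 0 ∪ (PP 0).sup id = Finset.univ.erase 9 by decide +kernel, Finset.subset_erase]
  simp [PP]

lemma m1 (F : Finset (Fin 10)) :
    mm 1 F ↔ (6 ∉ F ∧ ¬ {1, 4, 7, 8} ⊆ F ∧ ¬ {0, 2, 3, 5} ⊆ F) := by
  unfold mm
  rw [show AA 1 ∪ (PP 1).sup id = Finset.univ.erase 6 by decide +kernel, Finset.subset_erase]
  simp [PP]

lemma m2 (F : Finset (Fin 10)) :
    mm 2 F ↔ (5 ∉ F ∧ 7 ∉ F ∧ ¬ {0, 1, 2, 3, 4, 8} ⊆ F) := by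
  unfold mm
  rw [show AA 2 ∪ (PP 2).sup id = (Finset.univ.erase 5).erase 7 by decide +kernel,
    Finset.subset_erase, Finset.subset_erase]
  simp [PP, and_assoc]

lemma c1 (F : Finset (Fin 10)) : (mm 0 F ∧ mm 1 F ↔ mm 1 F ∧ ¬ AA 1 ⊆ F) ∧
    ((mm 0 F ∨ mm 1 F) ∧ mm 2 F ↔ mm 2 F ∧ ¬ AA 2 ⊆ F) ∧
    (pr F ↔ mm 0 F ∨ mm 1 F ∨ mm 2 F) := by
  rw [m0, m1, m2]
  refine ⟨?_, ?_, Iff.rfl⟩
  · simp only [AA, Finset.insert_subset_iff, Finset.singleton_subset_iff, one_ne_zero, if_false,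
      if_true]
    tauto
  · simp only [AA, Finset.insert_subset_iff, Finset.singleton_subset_iff,
      show (2 : ℕ) ≠ 0 by decide, show (2 : ℕ) ≠ 1 by decide, if_false]
    tauto

end Pool.Agent.H.MP_5b9ab2_co
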