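import Mathlib

namespace Pool.Agent.H.MP_5b9ab2_co

def bl (k a1 a2 i j : ℕ) : Bool := Nat.ble i a1 && Nat.ble j a2 && Nat.ble (k - i - j) (7 - a1 - a2)

def prs (k : ℕ) : List (ℕ × ℕ) :=
  (List.range (k + 1)).flatMap fun i => (List.range (k + 1 - i)).map fun j => (i, j)

def cn (k a1 a2 b1 b2 c1 c2 : ℕ) : ℕ :=
  (prs k).countP fun p => bl k a1 a2 p.1 p.2 || bl k b1 b2 p.1 p.2 || bl k c1 c2 p.1 p.2

def ok (a b c : ℕ × ℕ) : Bool :=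
  cn 3 a.1 a.2 b.1 b.2 c.1 c.2 == 7 && cn 2 a.1 a.2 b.1 b.2 c.1 c.2 == 6 &&
    cn 4 a.1 a.2 b.1 b.2 c.1 c.2 == 8 && cn 5 a.1 a.2 b.1 b.2 c.1 c.2 == 7 &&
    cn 6 a.1 a.2 b.1 b.2 c.1 c.2 == 5

lemma key0 : ((prs 7).all fun a => (prs 7).all fun b => !Nat.ble a.1 b.1 ||
    (prs 7).all fun c => !Nat.ble b.1 c.1 || !ok a b c) = true := by
  decide +kernel

lemma cn12 (k a1 a2 b1 b2 c1 c2 : ℕ) : cn k a1 a2 b1 b2 c1 c2 = cn k b1 b2 a1 a2 c1 c2 := by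
  unfold cn; congr 1; funext p; rw [Bool.or_comm (bl k a1 a2 p.1 p.2)]

lemma cn23 (k a1 a2 b1 b2 c1 c2 : ℕ) : cn k a1 a2 b1 b2 c1 c2 = cn k a1 a2 c1 c2 b1 b2 := by
  unfold cn; congr 1; funext p; rw [Bool.or_right_comm]

lemma ok12 (a b c : ℕ × ℕ) : ok a b c = ok b a c := by
  unfold ok; simp only [cn12 _ a.1 a.2 b.1 b.2]

lemma ok23 (a b c : ℕ × ℕ) : ok a b c = ok a c b := by
  unfold ok; simp only [cn23 _ a.1 a.2 b.1 b.2]

lemma key {a b c : ℕ × ℕ} (ha : a ∈ prs 7) (hb : b ∈ prs 7) (hc : c ∈ prs 7) :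
    ok a b c = false := by
  have h : ∀ a ∈ prs 7, ∀ b ∈ prs 7, ∀ c ∈ prs 7, a.1 ≤ b.1 → b.1 ≤ c.1 → ok a b c = false := by
    intro a ha b hb c hc h1 h2
    have := List.all_eq_true.1 (List.all_eq_true.1 key0 a ha) b hb
    rw [Nat.ble_eq_true_of_le h1] at this
    have := List.all_eq_true.1 this c hc
    rw [Nat.ble_eq_true_of_le h2] at this
    simpa using this
  rcases le_total a.1 b.1 with h1 | h1 <;> rcases le_total b.1 c.1 with h2 | h2 <;>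
    rcases le_total a.1 c.1 with h3 | h3
  · exact h a ha b hb c hc h1 h2
  · exact h a ha b hb c hc h1 h2
  · rw [ok23]; exact h a ha c hc b hb h3 h2
  · rw [ok23, ok12]; exact h c hc a ha b hb h3 h1
  · rw [ok12]; exact h b hb a ha c hc h1 h3
  · rw [ok12, ok23]; exact h b hb c hc a ha h2 h3
  · rw [ok12]; exact h b hb a ha c hc h1 h3
  · rw [ok12, ok23, ok12]; exact h c hc b hb a ha h2 h1

lemma mem_prs {k : ℕ} {p : ℕ × ℕ} : p ∈ prs k ↔ p.1 + p.2 ≤ k := by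
  obtain ⟨i, j⟩ := p
  simp only [prs, List.mem_flatMap, List.mem_range, List.mem_map, Prod.mk.injEq]
  constructor
  · rintro ⟨a, h1, b, h2, rfl, rfl⟩; omega
  · intro h; exact ⟨i, by omega, j, by omega, rfl, rfl⟩

lemma nodup_prs : ∀ k < 8, (prs k).Nodup := by decide +kernel

def pr (F : Finset (Fin 10)) : Prop :=
  (9 ∉ F ∧ ¬ {0, 1, 2, 3, 4, 5} ⊆ F ∧ ¬ {6, 7, 8} ⊆ F) ∨
  (6 ∉ F ∧ ¬ {1, 4, 7, 8} ⊆ F ∧ ¬ {0, 2, 3, 5} ⊆ F) ∨
  (5 ∉ F ∧ 7 ∉ F ∧ ¬ {0, 1, 2, 3, 4, 8} ⊆ F)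

instance : DecidablePred pr := fun F => by unfold pr; infer_instance

lemma fv : ∀ i < 8, ((Finset.univ.filter pr).filter (fun F => F.card = i)).card =
    [1, 10, 45, 117, 191, 199, 126, 40].getD i 0 := by
  decide +kernel

end Pool.Agent.H.MP_5b9ab2_co
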