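import Pool.Agent.H.MP_5b9ab2_co.K

namespace Pool.Agent.H.MP_5b9ab2_co

lemma single_of_sum {r : ℕ} {u : Fin r → ℕ} (h : ∑ i, u i = 1) : ∃ x, u = Pi.single x 1 := by
  obtain ⟨x, -, hx⟩ := Finset.exists_ne_zero_of_sum_ne_zero (s := Finset.univ) (f := u) (by omega)
  refine ⟨x, funext fun i => ?_⟩
  have := Finset.add_sum_erase Finset.univ u (Finset.mem_univ x)
  by_cases hi : i = x
  · subst hi; simp; omega
  · have := Finset.single_le_sum (f := u) (fun _ _ => Nat.zero_le _)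
      (Finset.mem_erase.2 ⟨hi, Finset.mem_univ i⟩)
    rw [Pi.single_eq_of_ne hi]; omega

theorem notpure {r : ℕ} (M : Finset (Fin r → ℕ))
    (hc : ∀ μ ∈ M, ∀ ν : Fin r → ℕ, ν ≤ μ → ν ∈ M)
    (hp : ∀ μ ∈ M, ∀ ν ∈ M, (∀ κ ∈ M, μ ≤ κ → κ = μ) → (∀ κ ∈ M, ν ≤ κ → κ = ν) →
        ∑ i, μ i = ∑ i, ν i)
    (h : ∀ k : ℕ, (M.filter (fun μ => ∑ i, μ i = k)).card = [1, 3, 6, 7, 8, 7, 5, 3].getD k 0) :
    False := by
  classical
  obtain ⟨a, b, c, -, -, -, h7⟩ := Finset.card_eq_three.1 (h 7)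
  obtain ⟨u, v, w, huv, huw, hvw, h1⟩ := Finset.card_eq_three.1 (h 1)
  have m7 : ∀ μ, (μ ∈ M ∧ ∑ i, μ i = 7) ↔ (μ = a ∨ μ = b ∨ μ = c) := fun μ => by
    simpa using Finset.ext_iff.1 h7 μ
  have m1 : ∀ μ, (μ ∈ M ∧ ∑ i, μ i = 1) ↔ (μ = u ∨ μ = v ∨ μ = w) := fun μ => by
    simpa using Finset.ext_iff.1 h1 μ
  have ha := (m7 a).2 (by simp)
  have hb := (m7 b).2 (by simp)
  have hc' := (m7 c).2 (by simp)
  obtain ⟨x, rfl⟩ := single_of_sum ((m1 u).2 (by simp)).2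
  obtain ⟨y, rfl⟩ := single_of_sum ((m1 v).2 (by simp)).2
  obtain ⟨z, rfl⟩ := single_of_sum ((m1 w).2 (by simp)).2
  have hxy : x ≠ y := fun e => huv (by rw [e])
  have hxz : x ≠ z := fun e => huw (by rw [e])
  have hyz : y ≠ z := fun e => hvw (by rw [e])
  have hle : ∀ μ ∈ M, ∑ i, μ i ≤ 7 := by
    intro μ hμ
    by_contra hlt
    have := h (∑ i, μ i)
    rw [List.getD_eq_default _ _ (by simp; omega), Finset.card_eq_zero] at this
    exact Finset.notMem_empty μ (this ▸ Finset.mem_filter.2 ⟨hμ, rfl⟩)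
  have heq : ∀ μ κ : Fin r → ℕ, μ ≤ κ → ∑ i, κ i ≤ ∑ i, μ i → κ = μ := by
    intro μ κ h1 h2
    have := (Finset.sum_eq_sum_iff_of_le (s := Finset.univ) (fun i _ => h1 i)).1
      (le_antisymm (Finset.sum_le_sum fun i _ => h1 i) h2)
    exact funext fun i => (this i (Finset.mem_univ _)).symm
  have hdom : ∀ μ ∈ M, μ ≤ a ∨ μ ≤ b ∨ μ ≤ c := by
    intro μ hμ
    obtain ⟨κ, hκ, hm⟩ := Finset.exists_max_image (M.filter (μ ≤ ·)) (fun κ => ∑ i, κ i)
      ⟨μ, Finset.mem_filter.2 ⟨hμ, le_rfl⟩⟩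
    rw [Finset.mem_filter] at hκ
    have := hp κ hκ.1 a ha.1 (fun τ hτ h1 => heq _ _ h1
      (hm τ (Finset.mem_filter.2 ⟨hτ, hκ.2.trans h1⟩))) (fun τ hτ h1 => heq _ _ h1
      (by rw [ha.2]; exact hle τ hτ))
    rcases (m7 κ).1 ⟨hκ.1, this.trans ha.2⟩ with rfl | rfl | rfl
    exacts [Or.inl hκ.2, Or.inr (Or.inl hκ.2), Or.inr (Or.inr hκ.2)]
  have hsup : ∀ μ ∈ M, ∀ i, i ≠ x → i ≠ y → i ≠ z → μ i = 0 := by
    intro μ hμ i h1 h2 h3
    by_contra h0
    have : Pi.single i 1 ∈ M := hc μ hμ _ (fun j => by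
      by_cases hj : j = i
      · subst hj; simp; omega
      · simp [Pi.single_eq_of_ne hj])
    rcases (m1 _).1 ⟨this, by simp⟩ with e | e | e <;>
    · have := congrFun e i
      simp [h1, h2, h3] at this
  have hsum : ∀ μ : Fin r → ℕ, (∀ i, i ≠ x → i ≠ y → i ≠ z → μ i = 0) →
      ∑ i, μ i = μ x + μ y + μ z := by
    intro μ hμ
    rw [← Finset.sum_subset (Finset.subset_univ {x, y, z}) (fun i _ hi => by
      simp only [Finset.mem_insert, Finset.mem_singleton, not_or] at hi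
      exact hμ i hi.1 hi.2.1 hi.2.2), Finset.sum_insert (by simp [hxy, hxz]),
      Finset.sum_pair hyz, add_assoc]
  have hbl : ∀ (k : ℕ) (μ t : Fin r → ℕ), t ∈ M → ∑ i, t i = 7 →
      (∀ i, i ≠ x → i ≠ y → i ≠ z → μ i = 0) → ∑ i, μ i = k →
      (bl k (t x) (t y) (μ x) (μ y) = true ↔ μ ≤ t) := by
    intro k μ t ht h7 hμ hk
    rw [hsum _ hμ] at hk
    rw [hsum _ (hsup t ht)] at h7
    simp only [bl, Bool.and_eq_true, Nat.ble_eq]
    constructor
    · rintro ⟨⟨h1, h2⟩, h3⟩ i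
      by_cases e1 : i = x
      · rw [e1]; exact h1
      by_cases e2 : i = y
      · rw [e2]; exact h2
      by_cases e3 : i = z
      · rw [e3]; show μ z ≤ t z; omega
      rw [hμ i e1 e2 e3]; exact Nat.zero_le _
    · intro hl
      have : μ x ≤ t x := hl x
      have : μ y ≤ t y := hl y
      have : μ z ≤ t z := hl z
      omega
  have hcn : ∀ k < 8, cn k (a x) (a y) (b x) (b y) (c x) (c y) =
      [1, 3, 6, 7, 8, 7, 5, 3].getD k 0 := by
    intro k hk
    rw [← h k, cn, List.countP_eq_length_filter,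
      ← List.toFinset_card_of_nodup ((nodup_prs k hk).filter _)]
    symm
    refine Finset.card_bij (fun μ _ => (μ x, μ y)) ?_ ?_ ?_
    · intro μ hμ
      rw [Finset.mem_filter] at hμ
      have s := hsup μ hμ.1
      simp only [List.mem_toFinset, List.mem_filter, mem_prs, Bool.or_eq_true]
      rw [hbl k μ a ha.1 ha.2 s hμ.2, hbl k μ b hb.1 hb.2 s hμ.2, hbl k μ c hc'.1 hc'.2 s hμ.2,
        or_assoc]
      refine ⟨?_, hdom μ hμ.1⟩
      have := hsum μ s
      omega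
    · intro μ hμ ν hν e
      rw [Finset.mem_filter] at hμ hν
      simp only [Prod.mk.injEq] at e
      have s1 := hsum μ (hsup μ hμ.1)
      have s2 := hsum ν (hsup ν hν.1)
      funext i
      by_cases e1 : i = x
      · rw [e1]; exact e.1
      by_cases e2 : i = y
      · rw [e2]; exact e.2
      by_cases e3 : i = z
      · rw [e3]; omega
      rw [hsup μ hμ.1 i e1 e2 e3, hsup ν hν.1 i e1 e2 e3]
    · rintro ⟨i, j⟩ hij
      simp only [List.mem_toFinset, List.mem_filter, mem_prs, Bool.or_eq_true] at hij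
      let μ : Fin r → ℕ := fun t => if t = x then i else if t = y then j else
        if t = z then k - i - j else 0
      have ex : μ x = i := by simp [μ]
      have ey : μ y = j := by simp [μ, hxy.symm]
      have ez : μ z = k - i - j := by simp [μ, hxz.symm, hyz.symm]
      have s : ∀ t, t ≠ x → t ≠ y → t ≠ z → μ t = 0 := fun t h1 h2 h3 => by simp [μ, h1, h2, h3]
      have sk : ∑ t, μ t = k := by rw [hsum μ s, ex, ey, ez]; omega
      refine ⟨μ, Finset.mem_filter.2 ⟨?_, sk⟩, by rw [ex, ey]⟩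
      have h2 := hij.2
      rw [← ex, ← ey, hbl k μ a ha.1 ha.2 s sk, hbl k μ b hb.1 hb.2 s sk,
        hbl k μ c hc'.1 hc'.2 s sk] at h2
      rcases h2 with (h2 | h2) | h2
      exacts [hc a ha.1 μ h2, hc b hb.1 μ h2, hc c hc'.1 μ h2]
  have hm : ∀ t ∈ M, (t x, t y) ∈ prs 7 := fun t ht => by
    have := hle t ht
    rw [hsum t (hsup t ht)] at this
    exact mem_prs.2 (by simp only; omega)
  have := key (hm a ha.1) (hm b hb.1) (hm c hc'.1)
  simp [ok, hcn] at this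

end Pool.Agent.H.MP_5b9ab2_co
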